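import Mathlib

/-!
# Prime factors of `q ^ d - 1`
-/

set_option autoImplicit false

namespace Pool.Agent.helper20.CF

open Finset

/-- if all prime factors of `q ^ d - 1` divide `q - 1`, then `d ≤ 2`, and `q + 1` is a power of 2
if `d = 2` -/
theorem deg_le_two {q d : ℕ} (hq : 2 ≤ q) (hd : 1 ≤ d)
    (h : ∀ l : ℕ, l.Prime → l ∣ q ^ d - 1 → l ∣ q - 1) :
    d ≤ 2 ∧ (d = 2 → ∃ a, q + 1 = 2 ^ a) := by
  have hmono : ∀ e, e ∣ d → q ^ e - 1 ∣ q ^ d - 1 := fun e he => Nat.pow_sub_one_dvd_pow_sub_one q he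
  -- step 1: the odd primes do not divide `d`
  have s1 : ∀ l, l.Prime → l ∣ d → l = 2 := by
    intro l hl hld
    by_contra hl2
    have hodd : Odd l := hl.odd_of_ne_two hl2
    have hgs : (∑ i ∈ range l, q ^ i) * (q - 1) = q ^ l - 1 := by
      obtain ⟨x, rfl⟩ : ∃ x, q = x + 1 := ⟨q - 1, by omega⟩
      rw [Nat.add_sub_cancel, ← geom_sum_mul_add x l, Nat.add_sub_cancel]
    set S := ∑ i ∈ range l, q ^ i with hS
    have hql : 1 < q ^ l := Nat.one_lt_pow hl.ne_zero (by omega)
    have hS0 : S ≠ 0 := by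
      intro h0
      rw [h0, zero_mul] at hgs
      omega
    have hSd : S ∣ q ^ d - 1 := (Dvd.intro _ hgs).trans (hmono l hld)
    have hmod : ∀ r, r.Prime → r ∣ S → r = l := by
      intro r hr hrS
      have hr1 : r ∣ q - 1 := h r hr (hrS.trans hSd)
      have hq1 : (q : ZMod r) = 1 := by
        have : ((q - 1 : ℕ) : ZMod r) = 0 := (ZMod.natCast_eq_zero_iff _ _).mpr hr1
        rw [Nat.cast_sub (by omega), sub_eq_zero] at this
        simpa using this
      have : ((S : ℕ) : ZMod r) = l := by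
        rw [hS]
        push_cast
        rw [hq1]
        simp
      rw [(ZMod.natCast_eq_zero_iff _ _).mpr hrS] at this
      exact (Nat.prime_dvd_prime_iff_eq hr hl).mp ((ZMod.natCast_eq_zero_iff _ _).mp this.symm)
    have hpow : S = l ^ S.primeFactorsList.length := Nat.eq_prime_pow_of_unique_prime_dvd hS0
      (fun {r} hr hrS => hmod r hr hrS)
    have hS1 : S ≠ 1 := by
      intro h1
      rw [h1, one_mul] at hgs
      have : q ^ 1 < q ^ l := Nat.pow_lt_pow_right hq hl.one_lt
      rw [pow_one] at this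
      omega
    have hlS : l ∣ S := by
      rw [hpow]
      apply dvd_pow_self
      intro h0
      rw [h0, pow_zero] at hpow
      exact hS1 hpow
    have hlq : l ∣ q - 1 := h l hl (hlS.trans hSd)
    have : Fact l.Prime := ⟨hl⟩
    have hlq' : ¬ l ∣ q := by
      intro h1
      have : l ∣ 1 := by
        have := (Nat.dvd_sub_iff_right (by omega) h1).mp hlq
        exact this
      exact hl.one_lt.ne' (Nat.dvd_one.mp this)
    have hv := padicValNat.pow_sub_pow (p := l) hodd (x := q) (y := 1) (by omega) (by simpa using hlq) hlq' hl.ne_zero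
    rw [one_pow, ← hgs, padicValNat.mul hS0 (by omega), padicValNat.self hl.one_lt] at hv
    have hvS : padicValNat l S = 1 := by omega
    rw [hpow, padicValNat.prime_pow] at hvS
    rw [hvS, pow_one] at hpow
    have : q ^ 1 ≤ S := by
      rw [hS]
      exact single_le_sum (f := fun i => q ^ i) (fun _ _ => Nat.zero_le _)
        (mem_range.mpr hl.one_lt)
    have hle := Nat.le_of_dvd (by omega) hlq
    rw [pow_one] at this
    omega
  have hdpow : d = 2 ^ d.primeFactorsList.length :=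
    Nat.eq_prime_pow_of_unique_prime_dvd (by omega) (fun {r} hr hrd => s1 r hr hrd)
  have s2 : ¬ 4 ∣ d := by
    intro h4
    have h5 : q ^ 2 + 1 ∣ q ^ d - 1 := by
      refine Dvd.dvd.trans ⟨q ^ 2 - 1, ?_⟩ (hmono 4 h4)
      have : 1 ≤ q ^ 2 := Nat.one_le_pow _ _ (by omega)
      zify [this, Nat.one_le_pow 4 q (by omega)]
      ring
    have hmod : ∀ r, r.Prime → r ∣ q ^ 2 + 1 → r = 2 := by
      intro r hr hrS
      have hr1 : r ∣ q - 1 := h r hr (hrS.trans h5)
      have h6 : r ∣ q ^ 2 - 1 := by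
        refine hr1.trans ⟨q + 1, ?_⟩
        zify [Nat.one_le_pow 2 q (by omega), (by omega : 1 ≤ q)]
        ring
      have h7 : r ∣ (q ^ 2 + 1) - (q ^ 2 - 1) := Nat.dvd_sub hrS h6
      have h8 : (q ^ 2 + 1) - (q ^ 2 - 1) = 2 := by
        have : 1 ≤ q ^ 2 := Nat.one_le_pow _ _ (by omega)
        omega
      rw [h8] at h7
      exact (Nat.prime_dvd_prime_iff_eq hr Nat.prime_two).mp h7
    have hpow : q ^ 2 + 1 = 2 ^ (q ^ 2 + 1).primeFactorsList.length :=
      Nat.eq_prime_pow_of_unique_prime_dvd (by omega) (fun {r} hr hrd => hmod r hr hrd)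
    have h9 : 4 < q ^ 2 + 1 := by nlinarith
    have h10 : 4 ∣ q ^ 2 + 1 := by
      rw [hpow] at h9 ⊢
      have : 2 ≤ (q ^ 2 + 1).primeFactorsList.length := by
        by_contra hlt
        have : 2 ^ (q ^ 2 + 1).primeFactorsList.length ≤ 2 ^ 1 :=
          Nat.pow_le_pow_right (by norm_num) (by omega)
        omega
      exact pow_dvd_pow 2 this
    have h11 : (q ^ 2 + 1) % 4 = 0 := Nat.mod_eq_zero_of_dvd h10
    have h12 : q % 4 = 0 ∨ q % 4 = 1 ∨ q % 4 = 2 ∨ q % 4 = 3 := by omega
    rcases h12 with h | h | h | h <;> simp [Nat.pow_mod, Nat.add_mod, h] at h11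
  constructor
  · by_contra hlt
    apply s2
    rw [hdpow] at hlt ⊢
    have : 2 ≤ d.primeFactorsList.length := by
      by_contra hlt2
      have : 2 ^ d.primeFactorsList.length ≤ 2 ^ 1 :=
        Nat.pow_le_pow_right (by norm_num) (by omega)
      omega
    exact pow_dvd_pow 2 this
  · intro h2
    subst h2
    refine ⟨(q + 1).primeFactorsList.length,
      Nat.eq_prime_pow_of_unique_prime_dvd (by omega) (fun {r} hr hrd => ?_)⟩
    have h5 : q + 1 ∣ q ^ 2 - 1 := by
      refine ⟨q - 1, ?_⟩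
      zify [Nat.one_le_pow 2 q (by omega), (by omega : 1 ≤ q)]
      ring
    have hr1 : r ∣ q - 1 := h r hr (hrd.trans h5)
    have h7 : r ∣ (q + 1) - (q - 1) := Nat.dvd_sub hrd hr1
    have h8 : (q + 1) - (q - 1) = 2 := by omega
    rw [h8] at h7
    exact (Nat.prime_dvd_prime_iff_eq hr Nat.prime_two).mp h7

end Pool.Agent.helper20.CF
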