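import Pool.Agent.helper20.CF.Phi
import Pool.Agent.helper20.CF.NT

/-!
# Uniqueness of the preimage for `|F| ≥ 3`
-/

set_option autoImplicit false

open Polynomial

namespace Pool.Agent.helper20.CF

variable {F : Type} [Field F] [Finite F]

theorem squarefree_of_phi {g : F[X]} (hg : g ≠ 0) (h : ¬ Nat.card F ∣ phi g) : Squarefree g := by
  rw [squarefree_iff_no_irreducibles hg]
  intro π hπ hd
  apply h
  have hfin := FiniteMultiplicity.of_not_isUnit hπ.not_isUnit hg
  have h2 : 2 ≤ multiplicity π g := by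
    rw [← hfin.pow_dvd_iff_le_multiplicity, pow_two]
    exact hd
  obtain ⟨c, hc, hnd⟩ := hfin.exists_eq_pow_mul_and_not_dvd
  obtain ⟨e, he⟩ : ∃ e, multiplicity π g = e + 1 + 1 := ⟨multiplicity π g - 2, by omega⟩
  rw [he] at hc
  rw [hc, phi_mul (((Irreducible.coprime_iff_not_dvd hπ).mpr hnd).pow_left),
    phi_prime_pow π hπ]
  refine Dvd.dvd.mul_right (Dvd.dvd.mul_right (dvd_pow_self _ ?_) _) _
  exact mul_ne_zero hπ.natDegree_pos.ne' (Nat.succ_ne_zero e)

/-- sets of monic irreducible polynomials -/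
def MI (s : Finset F[X]) : Prop := ∀ π ∈ s, π.Monic ∧ Irreducible π

omit [Finite F] in
theorem coprime_of_ne {π ρ : F[X]} (h1 : π.Monic ∧ Irreducible π) (h2 : ρ.Monic ∧ Irreducible ρ)
    (h : π ≠ ρ) : IsCoprime π ρ := by
  rw [Irreducible.coprime_iff_not_dvd h1.2]
  intro hd
  exact h (eq_of_monic_of_associated h1.1 h2.1 ((Irreducible.dvd_irreducible_iff_associated
    h1.2 h2.2).mp hd))

theorem phi_prod (s : Finset F[X]) (hs : MI s) :
    phi (∏ π ∈ s, π) = ∏ π ∈ s, (Nat.card F ^ π.natDegree - 1) := by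
  classical
  induction s using Finset.induction_on with
  | empty => rw [Finset.prod_empty, Finset.prod_empty, phi_one]
  | insert π s hπ ih =>
    have hs' : MI s := fun ρ hρ => hs ρ (Finset.mem_insert_of_mem hρ)
    rw [Finset.prod_insert hπ, Finset.prod_insert hπ, phi_mul, ih hs',
      phi_irreducible π (hs π (Finset.mem_insert_self _ _)).2]
    refine IsCoprime.prod_right fun ρ hρ => ?_
    exact coprime_of_ne (hs π (Finset.mem_insert_self _ _)) (hs' ρ hρ)
      (fun h => hπ (h ▸ hρ))

omit [Finite F] in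
theorem exists_finset {g : F[X]} (hg : g.Monic) (hsq : Squarefree g) :
    ∃ s : Finset F[X], MI s ∧ g = ∏ π ∈ s, π := by
  classical
  refine ⟨(UniqueFactorizationMonoid.normalizedFactors g).toFinset, ?_, ?_⟩
  · intro π hπ
    rw [Multiset.mem_toFinset] at hπ
    refine ⟨?_, UniqueFactorizationMonoid.irreducible_of_normalized_factor _ hπ⟩
    have h1 := UniqueFactorizationMonoid.normalize_normalized_factor π hπ
    rw [← h1]
    exact monic_normalize (UniqueFactorizationMonoid.irreducible_of_normalized_factor _ hπ).ne_zero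
  · have hnd := (UniqueFactorizationMonoid.squarefree_iff_nodup_normalizedFactors
      hg.ne_zero).mp hsq
    rw [Finset.prod, Multiset.toFinset_val, hnd.dedup, Multiset.map_id',
      UniqueFactorizationMonoid.prod_normalizedFactors_eq hg.ne_zero, hg.normalize_eq_self]

/-- all monic irreducible polynomials of degree at most `D` -/
noncomputable def S (F : Type) [Field F] [Finite F] (D : ℕ) : Set F[X] :=
  {π | (π.Monic ∧ Irreducible π) ∧ π.natDegree ≤ D}

theorem S_finite (D : ℕ) : (S F D).Finite := by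
  refine Set.Finite.of_injOn (f := fun π : F[X] => fun i : Fin (D + 1) => π.coeff i)
    (t := Set.univ) (fun _ _ => Set.mem_univ _) ?_ Set.finite_univ
  intro f hf g hg h
  ext k
  by_cases hk : k < D + 1
  · exact congrFun h ⟨k, hk⟩
  · rw [coeff_eq_zero_of_natDegree_lt, coeff_eq_zero_of_natDegree_lt]
    · have := hg.2
      omega
    · have := hf.2
      omega

theorem eq_of_prod_eq {ι : Type} (a : ι → ℕ) (s t : Finset ι) (hst : s ⊆ t)
    (ha : ∀ i ∈ t, 2 ≤ a i) (h : ∏ i ∈ s, a i = ∏ i ∈ t, a i) : s = t := by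
  classical
  by_contra hne
  obtain ⟨i, hit, his⟩ := Finset.exists_of_ssubset (Finset.ssubset_iff_subset_ne.mpr ⟨hst, hne⟩)
  have h1 : (∏ j ∈ insert i s, a j) ∣ ∏ j ∈ t, a j :=
    Finset.prod_dvd_prod_of_subset _ _ _ (Finset.insert_subset hit hst)
  rw [Finset.prod_insert his, ← h] at h1
  have hpos : 0 < ∏ j ∈ s, a j := Finset.prod_pos fun j hj => by
    have := ha j (hst hj)
    omega
  have h2 := Nat.le_of_dvd hpos h1
  have h3 := ha i hit
  nlinarith

theorem prod_deg (q : ℕ) (s : Finset F[X]) (hs : MI s) (h2 : ∀ π ∈ s, π.natDegree ≤ 2) :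
    ∏ π ∈ s, (q ^ π.natDegree - 1) =
      (q ^ 2 - 1) ^ (s.filter fun π => π.natDegree = 2).card *
        (q - 1) ^ (s.filter fun π => ¬ π.natDegree = 2).card := by
  rw [← Finset.prod_filter_mul_prod_filter_not s (fun π => π.natDegree = 2)]
  congr 1
  · refine (Finset.prod_congr rfl fun π hπ => ?_).trans (Finset.prod_const _)
    rw [(Finset.mem_filter.mp hπ).2]
  · refine (Finset.prod_congr rfl fun π hπ => ?_).trans (Finset.prod_const _)
    obtain ⟨h3, h4⟩ := Finset.mem_filter.mp hπ
    have := (hs π h3).2.natDegree_pos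
    have := h2 π h3
    have h5 : π.natDegree = 1 := by omega
    rw [h5, pow_one]

theorem exists_unique_pre (hq : 3 ≤ Nat.card F) :
    ∃ f : F[X], f.Monic ∧ ∀ g : F[X], g.Monic → phi g = phi f → g = f := by
  classical
  set q := Nat.card F with hqd
  set D := if q = 3 then 2 else 1 with hD
  have hD2 : D ≤ 2 := by
    rw [hD]
    split_ifs <;> norm_num
  set t := (S_finite (F := F) D).toFinset with ht
  have htm : ∀ π, π ∈ t ↔ (π.Monic ∧ Irreducible π) ∧ π.natDegree ≤ D := by
    intro π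
    rw [ht, Set.Finite.mem_toFinset]
    rfl
  have htMI : MI t := fun π hπ => ((htm π).mp hπ).1
  refine ⟨∏ π ∈ t, π, monic_prod_of_monic _ _ (fun π hπ => (htMI π hπ).1), ?_⟩
  intro g hg hphi
  rw [phi_prod t htMI] at hphi
  -- primes dividing phi
  have hprime : ∀ l : ℕ, l.Prime → l ∣ phi g → l ∣ q - 1 := by
    intro l hl hld
    rw [hphi, hl.prime.dvd_finset_prod_iff] at hld
    obtain ⟨ρ, hρ, hρl⟩ := hld
    obtain ⟨h1, h2⟩ := (htm ρ).mp hρ
    have h3 := h1.2.natDegree_pos
    by_cases hq3 : q = 3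
    · rw [hD, if_pos hq3] at h2
      rw [← hqd, hq3] at hρl
      have h4 : ρ.natDegree = 1 ∨ ρ.natDegree = 2 := by omega
      have h5 : l ∣ 2 ^ 3 := by
        rcases h4 with h4 | h4
        · rw [h4] at hρl
          exact hρl.trans (by norm_num)
        · rw [h4] at hρl
          exact hρl.trans (by norm_num)
      have h6 := hl.dvd_of_dvd_pow h5
      rw [hq3]
      exact h6
    · rw [hD, if_neg hq3] at h2
      have h4 : ρ.natDegree = 1 := by omega
      rw [h4, pow_one] at hρl
      exact hρl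
  have hndvd : ¬ q ∣ phi g := by
    intro h
    obtain ⟨l, hl, hlq⟩ := Nat.exists_prime_and_dvd (show q ≠ 1 by omega)
    have h1 := hprime l hl (hlq.trans h)
    have h2 : l ∣ q - (q - 1) := Nat.dvd_sub hlq h1
    have h3 : q - (q - 1) = 1 := by omega
    rw [h3] at h2
    exact hl.one_lt.ne' (Nat.dvd_one.mp h2)
  have hsq := squarefree_of_phi hg.ne_zero hndvd
  obtain ⟨s, hs, rfl⟩ := exists_finset hg hsq
  rw [phi_prod s hs] at hphi hprime
  have hdeg : ∀ π ∈ s, π.natDegree ≤ 2 ∧ (π.natDegree = 2 → ∃ a, q + 1 = 2 ^ a) := by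
    intro π hπ
    refine deg_le_two (by omega) (hs π hπ).2.natDegree_pos fun l hl hld => ?_
    exact hprime l hl (hld.trans (Finset.dvd_prod_of_mem _ hπ))
  have hge : ∀ π ∈ t, 2 ≤ Nat.card F ^ π.natDegree - 1 := by
    intro π hπ
    have h3 := (htMI π hπ).2.natDegree_pos
    have h4 : q ^ 1 ≤ q ^ π.natDegree := Nat.pow_le_pow_right (by omega) h3
    rw [pow_one] at h4
    rw [← hqd]
    omega
  have hfin : (∀ π ∈ s, π.natDegree ≤ D) → ∏ π ∈ s, π = ∏ π ∈ t, π := by
    intro h
    have hst : s ⊆ t := fun π hπ => (htm π).mpr ⟨hs π hπ, h π hπ⟩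
    rw [eq_of_prod_eq (fun π : F[X] => Nat.card F ^ π.natDegree - 1) s t hst hge hphi]
  by_cases hq3 : q = 3
  · apply hfin
    intro π hπ
    rw [hD, if_pos hq3]
    exact (hdeg π hπ).1
  · by_cases hex : ∃ π ∈ s, π.natDegree = 2
    · exfalso
      obtain ⟨π, hπ, hπ2⟩ := hex
      obtain ⟨a, ha⟩ := (hdeg π hπ).2 hπ2
      rw [prod_deg _ s hs (fun π hπ => (hdeg π hπ).1)] at hphi
      have h1 : ∏ π ∈ t, (Nat.card F ^ π.natDegree - 1) = (q - 1) ^ t.card := by
        refine (Finset.prod_congr rfl fun ρ hρ => ?_).trans (Finset.prod_const _)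
        obtain ⟨h1, h2⟩ := (htm ρ).mp hρ
        have h3 := h1.2.natDegree_pos
        rw [hD, if_neg hq3] at h2
        have h4 : ρ.natDegree = 1 := by omega
        rw [h4, pow_one]
      rw [h1, ← hqd] at hphi
      set m := (s.filter fun π => π.natDegree = 2).card with hm
      set k := (s.filter fun π => ¬ π.natDegree = 2).card with hk
      have hm1 : 1 ≤ m := by
        rw [hm]
        exact Finset.card_pos.mpr ⟨π, Finset.mem_filter.mpr ⟨hπ, hπ2⟩⟩
      have h2 : q ^ 2 - 1 = (q + 1) * (q - 1) := by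
        obtain ⟨x, hx⟩ : ∃ x, q = x + 1 := ⟨q - 1, by omega⟩
        rw [hx]
        simp only [Nat.add_sub_cancel]
        have : (x + 1) ^ 2 = (x + 1 + 1) * x + 1 := by ring
        rw [this, Nat.add_sub_cancel]
      rw [h2, mul_pow, mul_assoc, ← pow_add] at hphi
      have hq1 : 1 < q - 1 := by omega
      have hlt : m + k < t.card := by
        by_contra hge'
        have h5 : (q - 1) ^ t.card ≤ (q - 1) ^ (m + k) :=
          Nat.pow_le_pow_right (by omega) (by omega)
        have h6 : 1 < (q + 1) ^ m := Nat.one_lt_pow (by omega) (by omega)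
        have h7 : 0 < (q - 1) ^ (m + k) := pow_pos (by omega) _
        nlinarith
      obtain ⟨u, hu⟩ : ∃ u, t.card = (m + k) + (u + 1) := ⟨t.card - (m + k) - 1, by omega⟩
      rw [hu, pow_add (q - 1) (m + k) (u + 1), mul_comm] at hphi
      have h8 := Nat.eq_of_mul_eq_mul_left (pow_pos (by omega) _) hphi
      have h9 : q - 1 ∣ 2 ^ (a * m) := by
        rw [pow_mul, ← ha, h8]
        exact dvd_pow_self _ (Nat.succ_ne_zero u)
      obtain ⟨b, -, hb⟩ := (Nat.dvd_prime_pow Nat.prime_two).mp h9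
      have hb2 : 2 ≤ b := by
        by_contra hlt2
        have : 2 ^ b ≤ 2 ^ 1 := Nat.pow_le_pow_right (by norm_num) (by omega)
        omega
      have ha2 : 2 ≤ a := by
        by_contra hlt2
        have : 2 ^ a ≤ 2 ^ 1 := Nat.pow_le_pow_right (by norm_num) (by omega)
        omega
      have h10 : 4 ∣ q - 1 := by
        rw [hb]
        exact pow_dvd_pow 2 hb2
      have h11 : 4 ∣ q + 1 := by
        rw [ha]
        exact pow_dvd_pow 2 ha2
      omega
    · apply hfin
      intro π hπ
      rw [hD, if_neg hq3]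
      have h1 := (hdeg π hπ).1
      have h2 : π.natDegree ≠ 2 := fun h => hex ⟨π, hπ, h⟩
      omega

end Pool.Agent.helper20.CF
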