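import Pool.Agent.helper20.CF.Phi
import Pool.Agent.helper20.CF.NT

/-!
# The analogue of Carmichael's totient conjecture in `F[X]`
-/

set_option autoImplicit false

open Polynomial

namespace Pool.Agent.helper20.CF

section pos

variable {F : Type} [Field F] [Finite F]

theorem phi_lin_pow (hF : Nat.card F = 2) {π : F[X]} (hπ : Irreducible π) (h1 : π.natDegree = 1)
    (a : ℕ) : phi (π ^ a) = 2 ^ (a - 1) := by
  rcases a with _ | a
  · rw [pow_zero, phi_one]
    rfl
  · rw [phi_prime_pow π hπ, hF, h1]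
    simp

theorem irr_X : Irreducible (X : F[X]) := irreducible_X

theorem irr_Y : Irreducible (X + 1 : F[X]) := by
  have := irreducible_X_sub_C (-1 : F)
  simpa using this

theorem deg_Y : (X + 1 : F[X]).natDegree = 1 := by
  have := natDegree_X_add_C (1 : F)
  simpa using this

theorem monic_Y : (X + 1 : F[X]).Monic := by
  have := monic_X_add_C (1 : F)
  simpa using this

theorem coprime_XY : IsCoprime (X : F[X]) (X + 1) := ⟨-1, 1, by ring⟩

theorem phi_formula (hF : Nat.card F = 2) {h : F[X]} (hX : ¬ X ∣ h) (hY : ¬ (X + 1) ∣ h)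
    (a b : ℕ) : phi (X ^ a * ((X + 1) ^ b * h)) = 2 ^ (a - 1) * (2 ^ (b - 1) * phi h) := by
  have c1 : IsCoprime (X : F[X]) h := (Irreducible.coprime_iff_not_dvd irr_X).mpr hX
  have c2 : IsCoprime (X + 1 : F[X]) h := (Irreducible.coprime_iff_not_dvd irr_Y).mpr hY
  rw [phi_mul, phi_mul, phi_lin_pow hF irr_X natDegree_X, phi_lin_pow hF irr_Y deg_Y]
  · exact c2.pow_left
  · exact (IsCoprime.mul_right (coprime_XY.pow_right) c1).pow_left

theorem exists_partner (hF : Nat.card F = 2) (f : F[X]) (hf : f.Monic) :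
    ∃ g : F[X], g.Monic ∧ g ≠ f ∧ phi g = phi f := by
  obtain ⟨h1, e1, hX1⟩ := (FiniteMultiplicity.of_not_isUnit (irr_X (F := F)).not_isUnit
    hf.ne_zero).exists_eq_pow_mul_and_not_dvd
  set a := multiplicity X f with ha
  have hm1 : h1.Monic := by
    rw [e1] at hf
    exact (monic_X_pow a).of_mul_monic_left hf
  obtain ⟨h, e2, hY⟩ := (FiniteMultiplicity.of_not_isUnit (irr_Y (F := F)).not_isUnit
    hm1.ne_zero).exists_eq_pow_mul_and_not_dvd
  set b := multiplicity (X + 1) h1 with hb
  have hm : h.Monic := by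
    rw [e2] at hm1
    exact (monic_Y.pow b).of_mul_monic_left hm1
  have hX : ¬ X ∣ h := fun hd => hX1 (by rw [e2]; exact hd.mul_left _)
  have hfe : f = X ^ a * ((X + 1) ^ b * h) := by rw [← e2]; exact e1
  have hmon : ∀ a b : ℕ, (X ^ a * ((X + 1) ^ b * h) : F[X]).Monic := fun a b =>
    (monic_X_pow a).mul ((monic_Y.pow b).mul hm)
  have hdeg : ∀ a b : ℕ, (X ^ a * ((X + 1) ^ b * h) : F[X]).natDegree = a + (b + h.natDegree) := by
    intro a b
    rw [(monic_X_pow a).natDegree_mul ((monic_Y.pow b).mul hm), natDegree_X_pow,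
      (monic_Y.pow b).natDegree_mul hm, monic_Y.natDegree_pow, deg_Y, mul_one]
  by_cases ha1 : a ≤ 1
  · refine ⟨X ^ (1 - a) * ((X + 1) ^ b * h), hmon _ _, ?_, ?_⟩
    · intro he
      have := congrArg natDegree he
      rw [hfe, hdeg, hdeg] at this
      omega
    · rw [hfe, phi_formula hF hX hY, phi_formula hF hX hY]
      have : 1 - a - 1 = a - 1 := by omega
      rw [this]
  · by_cases hb1 : b ≤ 1
    · refine ⟨X ^ a * ((X + 1) ^ (1 - b) * h), hmon _ _, ?_, ?_⟩
      · intro he
        have := congrArg natDegree he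
        rw [hfe, hdeg, hdeg] at this
        omega
      · rw [hfe, phi_formula hF hX hY, phi_formula hF hX hY]
        have : 1 - b - 1 = b - 1 := by omega
        rw [this]
    · refine ⟨X ^ (a + 1) * ((X + 1) ^ (b - 1) * h), hmon _ _, ?_, ?_⟩
      · intro he
        apply hX1
        rw [hfe, pow_succ, mul_assoc] at he
        have := mul_left_cancel₀ (pow_ne_zero a (X_ne_zero)) he
        rw [e2, ← this]
        exact dvd_mul_right _ _
      · rw [hfe, phi_formula hF hX hY, phi_formula hF hX hY]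
        obtain ⟨a', ha'⟩ : ∃ a', a = a' + 1 := ⟨a - 1, by omega⟩
        obtain ⟨b', hb'⟩ : ∃ b', b = b' + 2 := ⟨b - 2, by omega⟩
        rw [ha', hb']
        simp only [Nat.add_sub_cancel, show b' + 2 - 1 - 1 = b' by omega,
          show b' + 2 - 1 = b' + 1 by omega, pow_succ]
        ring

end pos

end Pool.Agent.helper20.CF
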