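import Mathlib

/-!
# Euler's function of `F[X]`, `F` a finite field
-/

set_option autoImplicit false

open Polynomial

namespace Pool.Agent.helper20.CF

/-- Euler's function of `F[X]`: the number of units of the residue class ring `F[X]/(f)`. -/
noncomputable def phi {F : Type} [Field F] (f : F[X]) : ℕ := Nat.card (F[X] ⧸ Ideal.span {f})ˣ

variable {F : Type} [Field F]

theorem phi_mul {a b : F[X]} (h : IsCoprime a b) : phi (a * b) = phi a * phi b := by
  have hI : IsCoprime (Ideal.span {a}) (Ideal.span {b}) :=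
    (Ideal.isCoprime_span_singleton_iff a b).mpr h
  have e := Ideal.quotientMulEquivQuotientProd (Ideal.span {a}) (Ideal.span {b}) hI
  unfold phi
  rw [← Ideal.span_singleton_mul_span_singleton,
    Nat.card_congr (Units.mapEquiv e.toMulEquiv).toEquiv,
    Nat.card_congr MulEquiv.prodUnits.toEquiv, Nat.card_prod]

theorem phi_one : phi (1 : F[X]) = 1 := by
  unfold phi
  have : Subsingleton (F[X] ⧸ Ideal.span {(1 : F[X])}) := by
    rw [Ideal.Quotient.subsingleton_iff, Ideal.span_singleton_one]
  have : Subsingleton (F[X] ⧸ Ideal.span {(1 : F[X])})ˣ := inferInstance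
  exact Nat.card_unique

theorem finite_quot {f : F[X]} (hf : f ≠ 0) : Module.Finite F (F[X] ⧸ Ideal.span {f}) := by
  have h := (AdjoinRoot.powerBasis hf).finite
  exact h

variable [Finite F]

theorem card_quot {f : F[X]} (hf : f ≠ 0) :
    Nat.card (F[X] ⧸ Ideal.span {f}) = Nat.card F ^ f.natDegree := by
  have := finite_quot hf
  rw [Module.natCard_eq_pow_finrank (K := F), finrank_quotient_span_eq_natDegree]

theorem phi_prime_pow (π : F[X]) (hπ : Irreducible π) (e : ℕ) :
    phi (π ^ (e + 1)) = Nat.card F ^ (π.natDegree * e) * (Nat.card F ^ π.natDegree - 1) := by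
  classical
  have hπ0 : π ≠ 0 := hπ.ne_zero
  have hp0 : π ^ (e + 1) ≠ 0 := pow_ne_zero _ hπ0
  have := finite_quot hp0
  have := finite_quot hπ0
  have hIJ : Ideal.span {π ^ (e + 1)} ≤ Ideal.span {π} := by
    rw [Ideal.span_singleton_le_span_singleton]
    exact dvd_pow_self π (Nat.succ_ne_zero e)
  let φ : (F[X] ⧸ Ideal.span {π ^ (e + 1)}) →+* (F[X] ⧸ Ideal.span {π}) :=
    Ideal.Quotient.factor hIJ
  have hφ : Function.Surjective φ := Ideal.Quotient.factor_surjective hIJ
  have : Finite (F[X] ⧸ Ideal.span {π ^ (e + 1)}) := Module.finite_of_finite F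
  have : Finite (F[X] ⧸ Ideal.span {π}) := Module.finite_of_finite F
  have hmax : (Ideal.span {π} : Ideal F[X]).IsMaximal :=
    PrincipalIdealRing.isMaximal_of_irreducible hπ
  have hunit : ∀ x, IsUnit x ↔ φ x ≠ 0 := by
    intro x
    constructor
    · intro hx h0
      have hu : IsUnit (φ x) := hx.map φ
      rw [h0] at hu
      have : Nontrivial (F[X] ⧸ Ideal.span {π}) := Ideal.Quotient.nontrivial_iff.mpr hmax.ne_top
      exact not_isUnit_zero hu
    · intro h0
      obtain ⟨f, rfl⟩ := Ideal.Quotient.mk_surjective x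
      have hnd : ¬ π ∣ f := by
        intro hd
        apply h0
        change Ideal.Quotient.factor hIJ (Ideal.Quotient.mk _ f) = 0
        rw [Ideal.Quotient.factor_mk, Ideal.Quotient.eq_zero_iff_mem, Ideal.mem_span_singleton]
        exact hd
      have hc : IsCoprime f (π ^ (e + 1)) :=
        ((Irreducible.coprime_iff_not_dvd hπ).mpr hnd).symm.pow_right
      obtain ⟨a, b, hab⟩ := hc
      refine IsUnit.of_mul_eq_one_right (Ideal.Quotient.mk _ a) ?_
      rw [← map_mul, ← map_one (Ideal.Quotient.mk (Ideal.span {π ^ (e + 1)})), ← hab,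
        map_add, left_eq_add, Ideal.Quotient.eq_zero_iff_mem]
      exact Ideal.mem_span_singleton.mpr (Dvd.intro_left b rfl)
  have h1 : Nat.card (F[X] ⧸ Ideal.span {π ^ (e + 1)}) =
      Nat.card (F[X] ⧸ Ideal.span {π}) * Nat.card φ.toAddMonoidHom.ker := by
    rw [AddSubgroup.card_eq_card_quotient_mul_card_addSubgroup φ.toAddMonoidHom.ker,
      Nat.card_congr (QuotientAddGroup.quotientKerEquivOfSurjective φ.toAddMonoidHom hφ).toEquiv]
  have h2 : phi (π ^ (e + 1)) + Nat.card φ.toAddMonoidHom.ker =
      Nat.card (F[X] ⧸ Ideal.span {π ^ (e + 1)}) := by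
    have h3 := Set.ncard_add_ncard_compl {x : F[X] ⧸ Ideal.span {π ^ (e + 1)} | IsUnit x}
    rw [← h3]
    congr 1
    · unfold phi
      rw [← Set.ncard_univ, ← Set.ncard_image_of_injective _ Units.val_injective]
      congr 1
      ext x
      simp [IsUnit]
    · rw [← Nat.card_coe_set_eq]
      refine Nat.card_congr (Equiv.setCongr ?_)
      ext x
      simp only [Set.mem_compl_iff, Set.mem_ofPred_eq, hunit, not_not]
      rfl
  rw [card_quot hp0, card_quot hπ0, natDegree_pow] at h1
  rw [card_quot hp0, natDegree_pow] at h2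
  have hq : 0 < Nat.card F ^ π.natDegree := pow_pos Nat.card_pos _
  have hK : Nat.card φ.toAddMonoidHom.ker = Nat.card F ^ (π.natDegree * e) := by
    apply Nat.eq_of_mul_eq_mul_left hq
    rw [← h1, ← pow_add]
    congr 1
    ring
  rw [hK] at h2
  rw [Nat.mul_sub, mul_one, ← pow_add]
  have : (e + 1) * π.natDegree = π.natDegree * e + π.natDegree := by ring
  rw [this] at h2
  omega

theorem phi_irreducible (π : F[X]) (hπ : Irreducible π) :
    phi π = Nat.card F ^ π.natDegree - 1 := by
  have := phi_prime_pow π hπ 0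
  simpa using this

end Pool.Agent.helper20.CF
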